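import Pool.Agent.H93.ET.Defs
import Pool.Agent.H65.SC.TRP

/-! Cut-off of the coefficients of a bounded function. -/

set_option autoImplicit false

namespace Pool.Agent.H32.ET

open MeasureTheory AddCircle Finset Pool.Agent.H87.Synth Pool.Agent.H85.SC Pool.Agent.H93.ET

theorem trap_zero {A B : ℕ} (hAB : A < B) {n : ℤ} (hn : (B : ℝ) ≤ |(n : ℝ)|) :
    trap A B n = 0 := by
  have hAB' : (A : ℝ) < B := by exact_mod_cast hAB
  unfold trap
  exact max_eq_left ((min_le_right _ _).trans (div_nonpos_of_nonpos_of_nonneg (by linarith)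
    (by linarith)))

/-- the kernel -/
theorem kernel (A B : ℕ) (hA : 0 < A) (hAB : A < B) (h3 : A + B ≤ 3 * (B - A)) (N : ℕ)
    (hN : B ≤ N) :
    ∫ x : Circ, ‖∑ t ∈ Ioo (-(N : ℤ)) N, ((trap A B t : ℝ) : ℂ) * (fourier t x : ℂ)‖
      ∂haarAddCircle ≤ 3 := by
  rw [← norm_sum_ex (Ioo (-(N : ℤ)) N) (fun t => ((trap A B t : ℝ) : ℂ))]
  have hA' : (0 : ℝ) < A := by exact_mod_cast hA
  have hAB' : (A : ℝ) < B := by exact_mod_cast hAB
  have hd : (0 : ℝ) < B - A := by linarith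
  have h3' : (A : ℝ) + B ≤ 3 * (B - A) := by
    have h4 : ((A + B : ℕ) : ℝ) ≤ ((3 * (B - A) : ℕ) : ℝ) := Nat.cast_le.2 h3
    rw [Nat.cast_mul, Nat.cast_sub hAB.le, Nat.cast_add] at h4
    exact h4
  have hAc : (((A - 1 : ℕ) : ℝ)) + 1 = A := by
    rw [Nat.cast_sub hA]
    simp
  have hBc : (((B - 1 : ℕ) : ℝ)) + 1 = B := by
    rw [Nat.cast_sub (by omega : 1 ≤ B)]
    simp
  have e : (∑ k ∈ Ioo (-(N : ℤ)) N, ((trap A B k : ℝ) : ℂ) • ex k : L1) =
      ((((B : ℝ) - A)⁻¹ : ℝ) : ℂ) •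
        ((((B : ℝ)) : ℂ) • fejerK (B - 1) - (((A : ℝ)) : ℂ) • fejerK (A - 1)) := by
    apply ext_coeff
    intro n
    rw [coeff_sum]
    simp only [coeff_smul, coeff_ex, mul_ite, mul_one, mul_zero, Finset.sum_ite_eq']
    rw [coeff_sub, coeff_smul, coeff_smul, coeff_fejerK, coeff_fejerK, hAc, hBc]
    have h5 : (trap A B n : ℝ) = ((B : ℝ) - A)⁻¹ * ((B : ℝ) * max 0 (1 - |(n : ℝ)| / B) -
        A * max 0 (1 - |(n : ℝ)| / A)) := by
      rw [Pool.Agent.H65.SC.trap_eq A B hA hAB n]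
      field_simp
    have h6 : (if n ∈ Ioo (-(N : ℤ)) N then ((trap A B n : ℝ) : ℂ) else 0) =
        ((trap A B n : ℝ) : ℂ) := by
      split_ifs with h
      · rfl
      · rw [trap_zero hAB, Complex.ofReal_zero]
        have h7 : (N : ℤ) ≤ |n| := by
          rw [Finset.mem_Ioo] at h
          by_contra h8
          exact h (abs_lt.1 (not_le.1 h8))
        have h8 : (N : ℝ) ≤ |(n : ℝ)| := by exact_mod_cast h7
        have h9 : (B : ℝ) ≤ N := by exact_mod_cast hN
        linarith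
    rw [h6, h5]
    push_cast
    ring
  rw [e, norm_smul, Complex.norm_real, norm_inv, Real.norm_of_nonneg hd.le]
  have h1 := norm_sub_le ((((B : ℝ)) : ℂ) • fejerK (B - 1)) ((((A : ℝ)) : ℂ) • fejerK (A - 1))
  rw [norm_smul, norm_smul, norm_fejerK, norm_fejerK, Complex.norm_real, Complex.norm_real,
    Real.norm_of_nonneg (by positivity), Real.norm_of_nonneg (by positivity), mul_one,
    mul_one] at h1
  rw [inv_mul_le_iff₀ hd]
  linarith

theorem exists_point {w : ℂ} (hw : ‖w‖ = 1) : ∃ y : Circ, ∀ t : ℤ, w ^ t = (fourier t y : ℂ) := by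
  refine ⟨((w.arg : ℝ) : Circ), fun t => ?_⟩
  have h1 : ((AddCircle.toCircle ((w.arg : ℝ) : Circ) : Circle) : ℂ) = w := by
    rw [AddCircle.toCircle_apply_mk, Circle.coe_exp, div_self Real.two_pi_pos.ne', one_mul]
    have h2 := Complex.norm_mul_exp_arg_mul_I w
    rw [hw, Complex.ofReal_one, one_mul] at h2
    exact h2
  rw [fourier_apply, AddCircle.toCircle_zsmul, Circle.coe_zpow, h1]

theorem cs_mul (t : ℤ) (x y : Circ) : ((cs t x : ℝ) : ℂ) * (fourier t y : ℂ) =
    ((fourier t (y + x) : ℂ) + (fourier t (y - x) : ℂ)) / 2 := by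
  have h1 : (fourier t (y + x) : ℂ) = fourier t y * fourier t x := by
    simp only [fourier_apply, smul_add, toCircle_add, Circle.coe_mul]
  have h2 : (fourier t (y - x) : ℂ) = fourier t y * (starRingEnd ℂ) (fourier t x : ℂ) := by
    rw [← fourier_neg]
    simp only [fourier_apply]
    rw [sub_eq_add_neg, smul_add, toCircle_add, Circle.coe_mul, smul_neg, neg_smul]
  rw [h1, h2]
  unfold cs
  rw [Complex.re_eq_add_conj]
  ring

theorem cut : T_CUT := by
  intro A B hA hAB h3 H M hH hM N hN w hw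
  obtain ⟨y, hy⟩ := exists_point hw
  have hM0 : 0 ≤ M := (abs_nonneg _).trans (hM 0)
  have hHm : ∀ x, ‖((H x : ℝ) : ℂ)‖ ≤ M := fun x => by
    rw [Complex.norm_real]
    exact hM x
  obtain ⟨P, hP⟩ : ∃ P : Circ → ℂ, ∀ v, P v = ∑ t ∈ Ioo (-(N : ℤ)) N,
    ((trap A B t : ℝ) : ℂ) * (fourier t v : ℂ) := ⟨_, fun _ => rfl⟩
  have hPc : Continuous P := by
    have e : P = fun v => ∑ t ∈ Ioo (-(N : ℤ)) N, ((trap A B t : ℝ) : ℂ) * (fourier t v : ℂ) :=
      funext hP
    rw [e]
    exact continuous_finsetSum _ fun t _ => continuous_const.mul (fourier t).continuous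
  have hint : ∀ {f : Circ → ℂ}, Continuous f → Integrable f (haarAddCircle : Measure Circ) :=
    fun hf => hf.integrable_of_hasCompactSupport (HasCompactSupport.of_compactSpace _)
  have hintR : ∀ {f : Circ → ℝ}, Continuous f → Integrable f (haarAddCircle : Measure Circ) :=
    fun hf => hf.integrable_of_hasCompactSupport (HasCompactSupport.of_compactSpace _)
  have hcs : ∀ t : ℤ, Continuous (cs t) := fun t => by
    unfold cs
    exact Complex.continuous_re.comp (fourier t).continuous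
  have hHc : Continuous fun x => ((H x : ℝ) : ℂ) := Complex.continuous_ofReal.comp hH
  have hcsc : ∀ t : ℤ, Continuous fun x => ((cs t x : ℝ) : ℂ) :=
    fun t => Complex.continuous_ofReal.comp (hcs t)
  -- the sum as an integral
  have e1 : ∑ t ∈ Ioo (-(N : ℤ)) N,
      ((trap A B t * ∫ x, H x * cs t x ∂haarAddCircle : ℝ) : ℂ) * w ^ t =
      ∫ x : Circ, ((H x : ℝ) : ℂ) * ((P (y + x) + P (y - x)) / 2) ∂haarAddCircle := by
    have e2 : ∀ t ∈ Ioo (-(N : ℤ)) N,
        ((trap A B t * ∫ x, H x * cs t x ∂haarAddCircle : ℝ) : ℂ) * w ^ t =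
        ∫ x : Circ, ((H x : ℝ) : ℂ) * (((trap A B t : ℝ) : ℂ) *
          (((cs t x : ℝ) : ℂ) * (fourier t y : ℂ))) ∂haarAddCircle := by
      intro t _
      rw [hy t, Complex.ofReal_mul, ← integral_complex_ofReal, ← integral_const_mul,
        ← integral_mul_const]
      refine integral_congr_ae (Filter.Eventually.of_forall fun x => ?_)
      show ((trap A B t : ℝ) : ℂ) * ((H x * cs t x : ℝ) : ℂ) * (fourier t y : ℂ) = _
      rw [Complex.ofReal_mul]
      ring
    rw [Finset.sum_congr rfl e2, ← integral_finsetSum]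
    · refine integral_congr_ae (Filter.Eventually.of_forall fun x => ?_)
      show ∑ t ∈ Ioo (-(N : ℤ)) N, ((H x : ℝ) : ℂ) * (((trap A B t : ℝ) : ℂ) *
          (((cs t x : ℝ) : ℂ) * (fourier t y : ℂ))) =
        ((H x : ℝ) : ℂ) * ((P (y + x) + P (y - x)) / 2)
      rw [← Finset.mul_sum, hP, hP, ← Finset.sum_add_distrib, Finset.sum_div]
      refine congrArg _ (Finset.sum_congr rfl fun t _ => ?_)
      rw [cs_mul]
      ring
    · intro t _
      exact hint (hHc.mul (continuous_const.mul ((hcsc t).mul continuous_const)))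
  have hadd : Continuous fun x : Circ => y + x := continuous_const.add continuous_id
  have hsub : Continuous fun x : Circ => y - x := continuous_const.sub continuous_id
  rw [e1]
  refine (norm_integral_le_integral_norm _).trans ?_
  have h4 : ∫ x : Circ, ‖((H x : ℝ) : ℂ) * ((P (y + x) + P (y - x)) / 2)‖ ∂haarAddCircle ≤
      ∫ x : Circ, M / 2 * (‖P (y + x)‖ + ‖P (y - x)‖) ∂haarAddCircle := by
    refine integral_mono (hint (hHc.mul (((hPc.comp hadd).add (hPc.comp hsub)).div_const 2))).norm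
      (hintR (continuous_const.mul ((hPc.comp hadd).norm.add (hPc.comp hsub).norm))) fun x => ?_
    show ‖((H x : ℝ) : ℂ) * ((P (y + x) + P (y - x)) / 2)‖ ≤ M / 2 * (‖P (y + x)‖ + ‖P (y - x)‖)
    rw [norm_mul, norm_div, Complex.norm_ofNat]
    have h5 : ‖P (y + x) + P (y - x)‖ / 2 ≤ (‖P (y + x)‖ + ‖P (y - x)‖) / 2 := by
      have := norm_add_le (P (y + x)) (P (y - x))
      linarith
    calc ‖((H x : ℝ) : ℂ)‖ * (‖P (y + x) + P (y - x)‖ / 2) ≤
          M * ((‖P (y + x)‖ + ‖P (y - x)‖) / 2) :=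
          mul_le_mul (hHm x) h5 (by positivity) hM0
      _ = M / 2 * (‖P (y + x)‖ + ‖P (y - x)‖) := by ring
  have h6 : ∫ x : Circ, M / 2 * (‖P (y + x)‖ + ‖P (y - x)‖) ∂haarAddCircle =
      M * ∫ x : Circ, ‖P x‖ ∂haarAddCircle := by
    have i1 : Integrable (fun x : Circ => ‖P (y + x)‖) (haarAddCircle : Measure Circ) :=
      hintR (hPc.comp hadd).norm
    have i2 : Integrable (fun x : Circ => ‖P (y - x)‖) (haarAddCircle : Measure Circ) :=
      hintR (hPc.comp hsub).norm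
    rw [integral_const_mul, integral_add i1 i2, integral_add_left_eq_self (fun x => ‖P x‖) y, integral_sub_left_eq_self (fun x => ‖P x‖)
        (haarAddCircle : Measure Circ) y]
    ring
  have h7 : ∫ x : Circ, ‖P x‖ ∂haarAddCircle ≤ 3 := by
    have h8 := kernel A B hA hAB h3 N hN
    have e3 : (fun x : Circ => ‖P x‖) = fun x => ‖∑ t ∈ Ioo (-(N : ℤ)) N,
        ((trap A B t : ℝ) : ℂ) * (fourier t x : ℂ)‖ := funext fun x => by rw [hP]
    rw [e3]
    exact h8
  calc ∫ x : Circ, ‖((H x : ℝ) : ℂ) * ((P (y + x) + P (y - x)) / 2)‖ ∂haarAddCircle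
      ≤ M * ∫ x : Circ, ‖P x‖ ∂haarAddCircle := h4.trans h6.le
    _ ≤ M * 3 := mul_le_mul_of_nonneg_left h7 hM0
    _ = 3 * M := mul_comm _ _

end Pool.Agent.H32.ET
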